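import Pool.Agent.MDG.Stmts

/-!
# Squad MDG, row BLF (MP_3faef8_co): all blobs together
-/

set_option autoImplicit false

open Finset Pool.Agent.HEC

namespace Pool.Agent.MDG.H87

open Classical in
theorem mem_nde {V : Type} [Fintype V] {p : V → V} {w v : V} : v ∈ nde p w ↔ p v = w := by
  unfold nde
  rw [Finset.mem_filter]
  exact ⟨fun h => h.2, fun h => ⟨Finset.mem_univ _, h⟩⟩

open Classical in
theorem cnt_eq {α : Type} [Fintype α] (P : α → Prop) :
    (cnt P : ℝ) = ∑ a, if P a then (1 : ℝ) else 0 := by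
  unfold cnt
  rw [Finset.sum_boole]

open Classical in
theorem cnt_eq2 {V : Type} [Fintype V] (P : V × V → Prop) :
    (cnt P : ℝ) = ∑ u, ∑ v, if P (u, v) then (1 : ℝ) else 0 := by
  rw [cnt_eq, Fintype.sum_prod_type]

theorem sg_sq (b : Bool) : (sg b : ℝ) * sg b = 1 := by
  unfold sg
  split_ifs <;> norm_num

/-- sums over the two sides of a bipartite graph -/
theorem side_sum {V : Type} [Fintype V] {H : SimpleGraph V} {t : V → Bool} {x : V → V → ℝ}
    (hbip : ∀ u v, H.Adj u v → t u ≠ t v) (hs : ∀ u v, x u v = x v u)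
    (hz : ∀ u v, ¬ H.Adj u v → x u v = 0) :
    ∑ v, (if t v = true then bd x v else 0) = ∑ v, (if t v = true then 0 else bd x v) := by
  have e1 : ∑ v, (if t v = true then bd x v else 0)
      = ∑ v, ∑ w, (if t v = true then x v w else 0) := by
    refine Finset.sum_congr rfl fun v _ => ?_
    unfold bd
    split_ifs
    · rfl
    · simp
  have e2 : ∑ v, (if t v = true then 0 else bd x v)
      = ∑ v, ∑ w, (if t v = true then 0 else x v w) := by
    refine Finset.sum_congr rfl fun v _ => ?_
    unfold bd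
    split_ifs
    · simp
    · rfl
  rw [e1, e2, Finset.sum_comm]
  refine Finset.sum_congr rfl fun v _ => Finset.sum_congr rfl fun w _ => ?_
  by_cases h : H.Adj w v
  · have := hbip w v h
    rw [hs w v]
    cases hw : t w <;> cases hv : t v <;> simp [hw, hv] at this ⊢
  · rw [hz w v h, hs v w, hz w v h]
    simp

open Classical in
/-- sums over the nodes with at least two elements -/
theorem node_sum {V : Type} [Fintype V] (p : V → V) (f : V → V → ℝ) :
    ∑ w : {w : V // 2 ≤ (nde p w).card}, ∑ v ∈ nde p w.1, f w.1 v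
      = ∑ v, if 2 ≤ (nde p (p v)).card then f (p v) v else 0 := by
  have e1 : ∀ w : {w : V // 2 ≤ (nde p w).card}, ∑ v ∈ nde p w.1, f w.1 v
      = ∑ v, if p v = w.1 then f w.1 v else 0 := by
    intro w
    unfold nde
    rw [Finset.sum_filter]
  rw [Finset.sum_congr rfl fun w _ => e1 w, Finset.sum_comm]
  refine Finset.sum_congr rfl fun v _ => ?_
  by_cases h : 2 ≤ (nde p (p v)).card
  · rw [if_pos h, Finset.sum_eq_single (⟨p v, h⟩ : {w : V // 2 ≤ (nde p w).card})]
    · simp
    · intro w _ hw
      rw [if_neg]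
      intro h'
      exact hw (Subtype.ext h'.symm)
    · intro h'
      exact absurd (Finset.mem_univ _) h'
  · rw [if_neg h]
    refine Finset.sum_eq_zero fun w _ => ?_
    rw [if_neg]
    intro h'
    exact h (h' ▸ w.2)

theorem small_node {V : Type} [Fintype V] {p : V → V} {v : V}
    (h : ¬ 2 ≤ (nde p (p v)).card) : nde p (p v) = {v} := by
  have h1 : (nde p (p v)).card ≤ 1 := by omega
  have hv : v ∈ nde p (p v) := mem_nde.2 rfl
  refine Finset.eq_singleton_iff_unique_mem.2 ⟨hv, fun w hw => ?_⟩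
  exact Finset.card_le_one.1 h1 w hw v hv

theorem big_of_adj {V : Type} [Fintype V] {p : V → V} {u v : V} (huv : u ≠ v) (h : p u = p v) :
    2 ≤ (nde p (p u)).card := by
  have h1 : u ∈ nde p (p u) := mem_nde.2 rfl
  have h2 : v ∈ nde p (p u) := mem_nde.2 h.symm
  exact Finset.one_lt_card.2 ⟨u, h1, v, h2, huv⟩

/-- **BLF** -/
theorem blf (blb : BlbStmt) (tun : TunStmt) : BlfStmt := by
  classical
  intro V _ H t p xc r hbip hp he hcut hcross hm hxc hx0 hx1 hnet hr
  -- the boundary of `xc`
  set ψ : V → ℝ := bd xc with hψ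
  have hsing : ∀ v, ¬ 2 ≤ (nde p (p v)).card → ∃ z : ℤ, (r v : ℝ) - ψ v = 34 * z := by
    intro v hv
    obtain ⟨z, hz⟩ := hnet (p v)
    unfold net at hz
    rw [small_node hv, Finset.sum_singleton, Finset.sum_singleton] at hz
    refine ⟨sg (t v) * z, ?_⟩
    have := sg_sq (t v)
    push_cast
    have e : (r v : ℝ) - ψ v = (sg (t v) * sg (t v)) * ((r v : ℝ) - ψ v) := by rw [this, one_mul]
    rw [e]
    calc (sg (t v) * sg (t v) : ℝ) * ((r v : ℝ) - ψ v)
        = sg (t v) * ((sg (t v) : ℝ) * r v - sg (t v) * ψ v) := by ring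
      _ = sg (t v) * (34 * z) := by rw [hz]
      _ = 34 * (sg (t v) * z) := by ring
  set X : ℝ := ∑ v, (if t v = true then ψ v else 0) with hX
  set s : {w : V // 2 ≤ (nde p w).card} → ℝ := fun w =>
    ∑ v ∈ nde p w.1, (if t v = true then (r v : ℝ) - ψ v else 0) with hs
  have hssum : ∃ z0 : ℤ, ∑ w, s w = -X + (34 : ℕ) * z0 := by
    obtain ⟨z1, hz1⟩ := hr
    have h1 : ∀ v, ∃ z : ℤ, (if 2 ≤ (nde p (p v)).card then 0
        else (if t v = true then (r v : ℝ) - ψ v else 0)) = 34 * z := by
      intro v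
      split_ifs with h2 h3
      · exact ⟨0, by simp⟩
      · exact hsing v h2
      · exact ⟨0, by simp⟩
    choose z hz using h1
    refine ⟨z1 - ∑ v, z v, ?_⟩
    have e1 : ∑ w, s w = ∑ v, (if 2 ≤ (nde p (p v)).card then
        (if t v = true then (r v : ℝ) - ψ v else 0) else 0) :=
      node_sum p fun _ v => if t v = true then (r v : ℝ) - ψ v else 0
    have e2 : ∀ v, (if 2 ≤ (nde p (p v)).card then
        (if t v = true then (r v : ℝ) - ψ v else 0) else 0)
        = (((if t v = true then r v else 0 : ℤ) : ℝ) - (if t v = true then ψ v else 0)) - 34 * z v := by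
      intro v
      rw [← hz v]
      split_ifs <;> push_cast <;> ring
    rw [e1, Finset.sum_congr rfl fun v _ => e2 v, Finset.sum_sub_distrib, Finset.sum_sub_distrib,
      ← Int.cast_sum, hz1, ← Finset.mul_sum]
    push_cast
    ring
  obtain ⟨z0, hz0⟩ := hssum
  -- the numbers of edges
  set m : {w : V // 2 ≤ (nde p w).card} → ℝ := fun w => (e2 (res H (nde p w.1)) : ℝ) with hmdef
  set C : ℝ := (cnt (fun q : V × V => H.Adj q.1 q.2 ∧ p q.1 ≠ p q.2) : ℝ) with hC
  have hC' : 89 * C ≤ (e2 H : ℝ) := by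
    rw [hC]
    exact_mod_cast hcross
  have hCs : C = ∑ u, ∑ v, if H.Adj u v ∧ p u ≠ p v then (1 : ℝ) else 0 := by
    rw [hC, cnt_eq2]
    refine Finset.sum_congr rfl fun u _ => Finset.sum_congr rfl fun v _ => ?_
    by_cases h : H.Adj u v ∧ p u ≠ p v
    · rw [if_pos h, if_pos h]
    · rw [if_neg h, if_neg h]
  have hEs : (e2 H : ℝ) = ∑ u, ∑ v, if H.Adj u v then (1 : ℝ) else 0 := by
    unfold e2
    rw [cnt_eq2]
  have hmsum : ∑ w, m w = (e2 H : ℝ) - C := by
    have e1 : ∀ w : {w : V // 2 ≤ (nde p w).card},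
        m w = ∑ u ∈ nde p w.1, ∑ v, if H.Adj u v ∧ p v = w.1 then (1 : ℝ) else 0 := by
      intro w
      show ((e2 (res H (nde p w.1)) : ℕ) : ℝ) = _
      unfold e2
      rw [cnt_eq2]
      unfold nde
      rw [Finset.sum_filter]
      refine Finset.sum_congr rfl fun u _ => ?_
      split_ifs with h
      · refine Finset.sum_congr rfl fun v _ => ?_
        refine if_congr ?_ rfl rfl
        show (H.Adj u v ∧ u ∈ _ ∧ v ∈ _) ↔ _
        rw [Finset.mem_filter, Finset.mem_filter]
        exact ⟨fun h' => ⟨h'.1, h'.2.2.2⟩, fun h' =>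
          ⟨h'.1, ⟨Finset.mem_univ _, h⟩, Finset.mem_univ _, h'.2⟩⟩
      · refine Finset.sum_eq_zero fun v _ => ?_
        rw [if_neg]
        rintro ⟨-, h', -⟩
        exact h (Finset.mem_filter.1 h').2
    rw [Finset.sum_congr rfl fun w _ => e1 w,
      node_sum p fun w u => ∑ v, if H.Adj u v ∧ p v = w then (1 : ℝ) else 0, hEs, hCs,
      ← Finset.sum_sub_distrib]
    refine Finset.sum_congr rfl fun u _ => ?_
    rw [← Finset.sum_sub_distrib]
    by_cases h : 2 ≤ (nde p (p u)).card
    · rw [if_pos h]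
      refine Finset.sum_congr rfl fun v _ => ?_
      by_cases h1 : H.Adj u v
      · by_cases h2 : p u = p v
        · simp [h1, h2]
        · have h3 : ¬ p v = p u := fun h => h2 h.symm
          simp [h1, h2, h3]
      · simp [h1]
    · rw [if_neg h]
      symm
      refine Finset.sum_eq_zero fun v _ => ?_
      by_cases h1 : H.Adj u v
      · have h2 : p u ≠ p v := fun h2 => h (big_of_adj h1.ne h2)
        simp [h1, h2]
      · simp [h1]
  have hE0 : (0 : ℝ) < e2 H := by exact_mod_cast he
  have hmt : 88 / 89 * (e2 H : ℝ) ≤ ∑ w, m w := by rw [hmsum]; linarith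
  have hmt0 : 0 < ∑ w, m w := by linarith
  have hm28 : ∀ w, 28000 ≤ m w := by
    intro w
    have := hm w.1 w.2
    show (28000 : ℝ) ≤ ((e2 (res H (nde p w.1)) : ℕ) : ℝ)
    exact_mod_cast this
  -- the total of `xc`
  have hxabs : ∀ u v, |xc u v| ≤ if H.Adj u v ∧ p u ≠ p v then (1 : ℝ) else 0 := by
    intro u v
    split_ifs with h
    · exact hxc.rng u v
    · by_cases h1 : H.Adj u v
      · have : p u = p v := by
          by_contra h2
          exact h ⟨h1, h2⟩
        rw [hx0 u v this, abs_zero]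
      · rw [hxc.supp u v h1, abs_zero]
  have hX2 : 2 * |X| ≤ C := by
    have h1 := side_sum hbip hxc.symm hxc.supp
    have h2 : 2 * X = ∑ v, bd xc v := by
      have : ∑ v, bd xc v = ∑ v, (if t v = true then bd xc v else 0)
          + ∑ v, (if t v = true then 0 else bd xc v) := by
        rw [← Finset.sum_add_distrib]
        refine Finset.sum_congr rfl fun v _ => ?_
        split_ifs <;> ring
      rw [this, ← h1, hX, hψ]
      ring
    have h3 : |∑ v, bd xc v| ≤ C := by
      rw [hCs]
      refine (Finset.abs_sum_le_sum_abs _ _).trans (Finset.sum_le_sum fun u _ => ?_)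
      unfold bd
      exact (Finset.abs_sum_le_sum_abs _ _).trans (Finset.sum_le_sum fun v _ => hxabs u v)
    rw [← h2, abs_mul, abs_of_pos (by norm_num : (0 : ℝ) < 2)] at h3
    exact h3
  -- the totals of the blobs
  set a : {w : V // 2 ≤ (nde p w).card} → ℝ := fun w => -X * m w / ∑ w, m w with ha
  have hasum : ∑ w, a w = -X := by
    rw [ha, ← Finset.sum_div, ← Finset.mul_sum]
    field_simp
  obtain ⟨σ, hσ1, hσ2, hσ3⟩ := tun _ a s (-X) 34 z0 (by norm_num) hasum hz0
  -- Lemma A inside the blobs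
  have hblob : ∀ w : {w : V // 2 ≤ (nde p w).card}, ∃ (z : V → ℤ) (x : V → V → ℝ),
      RLab (res H (nde p w.1)) (1 / 40) x ∧
      (∀ v ∈ nde p w.1, bd x v = ((r v : ℝ) - ψ v) + 34 * z v) ∧
      ∑ v ∈ nde p w.1, (if t v = true then bd x v else 0) = σ w := by
    intro w
    obtain ⟨z, hz⟩ := hσ1 w
    obtain ⟨z', hz'⟩ := hnet w.1
    have hmw : 0 < m w := by linarith [hm28 w]
    obtain ⟨ζ, x, hx, hb, hsig⟩ := blb V H t (nde p w.1) 14000 (1 / 6900) 34
      (fun v => (r v : ℝ) - ψ v) (σ w) (-z) (-z - z') hbip (by norm_num)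
      (fun A h1 h2 h3 => by exact_mod_cast hcut w.1 A h1 h2 h3) (by norm_num) (by norm_num)
      (by
        have := hm w.1 w.2
        omega)
      (by
        show s w - σ w = _
        rw [hz]
        push_cast
        ring)
      (by
        have e : ∑ v ∈ nde p w.1, (if t v = true then 0 else (r v : ℝ) - ψ v)
            = s w - (∑ v ∈ nde p w.1, (sg (t v) : ℝ) * r v - net t p xc w.1) := by
          unfold net
          rw [hs, ← Finset.sum_sub_distrib, ← Finset.sum_sub_distrib]
          refine Finset.sum_congr rfl fun v _ => ?_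
          unfold sg
          split_ifs <;> push_cast <;> ring
        rw [e, hz', hz]
        push_cast
        ring)
    refine ⟨ζ, x, ⟨hx.symm, hx.supp, fun u v => (hx.rng u v).trans ?_⟩, fun v hv => ?_, hsig⟩
    · have h1 : |σ w| ≤ |X| * m w / (∑ w, m w) + 34 := by
        have h2 := hσ2 w
        have h3 : |a w| = |X| * m w / ∑ w, m w := by
          rw [ha]
          show |(-X * m w / ∑ w, m w)| = _
          rw [abs_div, abs_mul, abs_neg, abs_of_pos hmw, abs_of_pos hmt0]
        calc |σ w| = |(σ w - a w) + a w| := by ring_nf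
          _ ≤ |σ w - a w| + |a w| := abs_add_le _ _
          _ ≤ 34 + |X| * m w / ∑ w, m w := by
              rw [h3]
              have : ((34 : ℕ) : ℝ) = 34 := by norm_num
              rw [this] at h2
              linarith
          _ = _ := by ring
      have h4 : 2 * |σ w| / m w ≤ 2 * |X| / (∑ w, m w) + 68 / m w := by
        rw [div_le_iff₀ hmw]
        have : (2 * |X| / (∑ w, m w) + 68 / m w) * m w = 2 * (|X| * m w / (∑ w, m w) + 34) := by
          field_simp
          ring
        rw [this]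
        linarith
      have h5 : 2 * |X| / (∑ w, m w) ≤ 1 / 88 := by
        rw [div_le_iff₀ hmt0]
        linarith
      have h6 : 68 / m w ≤ 68 / 28000 := by
        apply div_le_div_of_nonneg_left (by norm_num) (by norm_num) (hm28 w)
      show 2 * ((34 : ℕ) : ℝ) * (1 / 6900) + 2 * |σ w| / m w ≤ 1 / 40
      push_cast
      linarith
    · have := hb v hv
      push_cast at this
      linarith
  choose ζ xb hxb hbd hsig using hblob
  -- the function
  have hval : ∀ u v, p u ≠ p v → ∀ w, xb w u v = 0 := by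
    intro u v h w
    refine (hxb w).supp u v ?_
    rintro ⟨-, h1, h2⟩
    rw [mem_nde] at h1 h2
    exact h (h1.trans h2.symm)
  have hval' : ∀ u v w, p u ≠ w.1 → xb w u v = 0 := by
    intro u v w h
    refine (hxb w).supp u v ?_
    rintro ⟨-, h1, -⟩
    exact h (mem_nde.1 h1)
  have hsum1 : ∀ u v (h : 2 ≤ (nde p (p u)).card), ∑ w, xb w u v = xb ⟨p u, h⟩ u v := by
    intro u v h
    refine Finset.sum_eq_single (⟨p u, h⟩ : {w : V // 2 ≤ (nde p w).card}) (fun w _ hw => ?_) ?_
    · refine hval' u v w fun h' => hw (Subtype.ext h'.symm)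
    · intro h'
      exact absurd (Finset.mem_univ _) h'
  have hsum0 : ∀ u v, ¬ 2 ≤ (nde p (p u)).card → ∑ w, xb w u v = 0 := by
    intro u v h
    refine Finset.sum_eq_zero fun w _ => hval' u v w fun h' => h (h' ▸ w.2)
  set x : V → V → ℝ := fun u v => xc u v + ∑ w, xb w u v with hx
  have hbdx : ∀ v, bd x v = ψ v + ∑ w, bd (xb w) v := by
    intro v
    rw [hψ]
    unfold bd
    rw [hx]
    simp only []
    rw [Finset.sum_add_distrib, Finset.sum_comm]
  have hbdx1 : ∀ v, ∃ z : ℤ, bd x v = (r v : ℝ) + 34 * z := by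
    intro v
    rw [hbdx v]
    by_cases h : 2 ≤ (nde p (p v)).card
    · have e : ∑ w, bd (xb w) v = bd (xb ⟨p v, h⟩) v := by
        refine Finset.sum_eq_single (⟨p v, h⟩ : {w : V // 2 ≤ (nde p w).card})
          (fun w _ hw => ?_) ?_
        · unfold bd
          exact Finset.sum_eq_zero fun u _ => hval' v u w fun h' => hw (Subtype.ext h'.symm)
        · intro h'
          exact absurd (Finset.mem_univ _) h'
      rw [e, hbd ⟨p v, h⟩ v (mem_nde.2 rfl)]
      exact ⟨ζ ⟨p v, h⟩ v, by ring⟩
    · have e : ∑ w, bd (xb w) v = 0 := by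
        refine Finset.sum_eq_zero fun w _ => ?_
        unfold bd
        exact Finset.sum_eq_zero fun u _ => hval' v u w fun h' => h (h' ▸ w.2)
      obtain ⟨z, hz⟩ := hsing v h
      refine ⟨-z, ?_⟩
      rw [e]
      push_cast
      linarith
  choose z hz using hbdx1
  have hsym : ∀ u v, x u v = x v u := by
    intro u v
    rw [hx]
    show xc u v + ∑ w, xb w u v = xc v u + ∑ w, xb w v u
    rw [hxc.symm u v]
    congr 1
    exact Finset.sum_congr rfl fun w _ => (hxb w).symm u v
  have hsupp : ∀ u v, ¬ H.Adj u v → x u v = 0 := by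
    intro u v h
    show xc u v + ∑ w, xb w u v = 0
    rw [hxc.supp u v h, zero_add]
    exact Finset.sum_eq_zero fun w _ => (hxb w).supp u v fun h' => h h'.1
  have hcase : ∀ u v, (p u ≠ p v ∧ x u v = xc u v) ∨ (p u = p v ∧ |x u v| ≤ 1 / 40) := by
    intro u v
    by_cases h : p u = p v
    · right
      refine ⟨h, ?_⟩
      show |xc u v + ∑ w, xb w u v| ≤ 1 / 40
      rw [hx0 u v h, zero_add]
      by_cases h2 : 2 ≤ (nde p (p u)).card
      · rw [hsum1 u v h2]
        exact (hxb _).rng u v
      · rw [hsum0 u v h2, abs_zero]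
        norm_num
    · left
      refine ⟨h, ?_⟩
      show xc u v + ∑ w, xb w u v = xc u v
      rw [Finset.sum_eq_zero fun w _ => hval u v h w, add_zero]
  have htot : ∑ v, (if t v = true then bd x v else 0) = 0 := by
    have e1 : ∀ v, (if t v = true then bd x v else 0)
        = (if t v = true then ψ v else 0) + ∑ w, (if t v = true then bd (xb w) v else 0) := by
      intro v
      rw [hbdx v]
      split_ifs <;> simp
    rw [Finset.sum_congr rfl fun v _ => e1 v, Finset.sum_add_distrib, ← hX, Finset.sum_comm]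
    have e2 : ∀ w, ∑ v, (if t v = true then bd (xb w) v else 0) = σ w := by
      intro w
      rw [← hsig w]
      symm
      refine Finset.sum_subset (Finset.subset_univ _) fun v _ hv => ?_
      have : bd (xb w) v = 0 := by
        unfold bd
        exact Finset.sum_eq_zero fun u _ => hval' v u w fun h' => hv (mem_nde.2 h')
      rw [this]
      simp
    rw [Finset.sum_congr rfl fun w _ => e2 w, hσ3]
    ring
  refine ⟨fun v => r v + 34 * z v, x, fun v => ⟨z v, by ring⟩, ?_, ⟨hsym, hsupp, ?_⟩, ?_, ?_, ?_⟩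
  · have h1 := side_sum hbip hsym hsupp
    have h2 : ∑ v, bd x v = 0 := by
      have : ∑ v, bd x v = ∑ v, (if t v = true then bd x v else 0)
          + ∑ v, (if t v = true then 0 else bd x v) := by
        rw [← Finset.sum_add_distrib]
        refine Finset.sum_congr rfl fun v _ => ?_
        split_ifs <;> ring
      rw [this, ← h1, htot]
      ring
    have h3 : ((∑ v, (r v + 34 * z v) : ℤ) : ℝ) = 0 := by
      push_cast
      rw [← h2]
      exact Finset.sum_congr rfl fun v _ => (hz v).symm
    exact_mod_cast h3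
  · intro u v
    rcases hcase u v with ⟨-, h⟩ | ⟨-, h⟩
    · rw [h]
      exact hxc.rng u v
    · linarith
  · intro u v huv
    rcases hcase u v with ⟨-, h⟩ | ⟨-, h⟩
    · rw [h]
      linarith [hx1 u v huv]
    · linarith
  · intro v
    rw [hz v]
    push_cast
    ring
  · have h1 : ∀ u v, |x u v| ≤ (if H.Adj u v ∧ p u ≠ p v then (1 : ℝ) else 0)
        + 1 / 40 * (if H.Adj u v then (1 : ℝ) else 0) := by
      intro u v
      by_cases hA : H.Adj u v
      · rcases hcase u v with ⟨h2, h⟩ | ⟨h2, h⟩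
        · rw [h, if_pos ⟨hA, h2⟩, if_pos hA]
          linarith [hxc.rng u v]
        · rw [if_pos hA, if_neg fun h' => h'.2 h2]
          linarith
      · rw [hsupp u v hA, abs_zero, if_neg hA, if_neg fun h' => hA h'.1]
        norm_num
    have h2 : ∑ u, ∑ v, |x u v| ≤ C + 1 / 40 * (e2 H : ℝ) := by
      rw [hCs, hEs, Finset.mul_sum, ← Finset.sum_add_distrib]
      refine Finset.sum_le_sum fun u _ => ?_
      rw [Finset.mul_sum, ← Finset.sum_add_distrib]
      exact Finset.sum_le_sum fun v _ => h1 u v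
    linarith

end Pool.Agent.MDG.H87
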